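import Pool.Agent.helper36.BP.SpecD

/-!
# Project bp, row PF3
-/

set_option autoImplicit false

open Finset
open Pool.Agent.FI Pool.Agent.HK
open Pool.Agent.CH (nit rgh ll2)
open Pool.Agent.SK (tr0 Th)

noncomputable section

namespace Pool.Agent.BP

theorem PF3_mul (z w : ℤ × ℤ) : N8 (mul8 z w) = N8 z * N8 w := by
  unfold N8 mul8
  ring

theorem PF3_nn (z w : ℤ × ℤ) : nn (mul8 z w) = nn z * nn w := by
  unfold nn
  rw [PF3_mul, Int.natAbs_mul]

theorem PF3_odd (z : ℤ × ℤ) (hz : z.1 % 2 = 1) : nn z ≠ 0 := by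
  unfold nn N8
  intro h
  have h1 := Int.natAbs_eq_zero.mp h
  have h2 : (z.1 ^ 2 - 8 * z.2 ^ 2) % 2 = 1 := by
    have h3 : z.1 ^ 2 % 2 = 1 := by
      rw [sq, Int.mul_emod, hz]
      rfl
    omega
  rw [h1] at h2
  norm_num at h2

theorem PF3_nit (t : ℝ) (m n : ℕ) (hm : m ≠ 0) (hn : n ≠ 0) :
    nit t ((m * n : ℕ) : ℝ) = nit t (m : ℝ) * nit t (n : ℝ) := by
  unfold nit
  have h1 : (m : ℝ) ≠ 0 := Nat.cast_ne_zero.mpr hm
  have h2 : (n : ℝ) ≠ 0 := Nat.cast_ne_zero.mpr hn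
  rw [← Complex.exp_add, Nat.cast_mul, Real.log_mul h1 h2]
  congr 1
  push_cast
  ring

theorem PF3_nit_norm (t x : ℝ) : ‖nit t x‖ = 1 := by
  unfold nit
  exact Complex.norm_exp_ofReal_mul_I _

theorem PF3_MU (hUCH : UCH_stmt) (d : ℕ) (ψ : ℤ × ℤ → ℂ) (hψ : IsRC d ψ) (j i : ℕ) (κ t : ℝ) (hU : UInv ψ j κ) :
    MU (fun z => HC ψ j i κ z * nit t (nn z)) := by
  have h := hUCH d ψ j i κ hψ hU
  refine ⟨?_, ?_⟩
  · intro z w hz hw
    show HC ψ j i κ (mul8 z w) * nit t (nn (mul8 z w)) = (HC ψ j i κ z * nit t (nn z)) * (HC ψ j i κ w * nit t (nn w))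
    rw [h.1 z w hz hw, PF3_nn, PF3_nit t _ _ (PF3_odd z hz) (PF3_odd w hw)]
    ring
  · intro u hu
    show HC ψ j i κ u * nit t (nn u) = 1
    rw [h.2.1 u hu]
    have h1 : nn u = 1 := by
      unfold nn
      rw [hu]
      rfl
    rw [h1]
    unfold nit
    simp

theorem PF3_FF1 (Ψ : ℤ × ℤ → ℂ) (hΨ : MU Ψ) : ∑ z ∈ FF 1, (1 : ℂ) * Ψ z = 1 := by
  have h1 : FF 1 = {((1 : ℤ), (0 : ℤ))} := by
    ext ⟨a, b⟩
    simp only [FF, mem_filter, mem_product, mem_Icc, mem_singleton, Prod.mk.injEq]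
    constructor
    · rintro ⟨⟨⟨h1, h2⟩, h3, h4⟩, ⟨h5, h6⟩, h7⟩
      unfold nn N8 at h7
      simp only [Nat.cast_one, mul_one] at h1 h2 h3 h4 h5 h6 h7
      interval_cases a <;> interval_cases b <;> simp_all
    · rintro ⟨rfl, rfl⟩
      unfold Fd nn N8
      refine ⟨⟨⟨?_, ?_⟩, ?_, ?_⟩, ⟨?_, ?_⟩, ?_⟩ <;> norm_num
  rw [h1, sum_singleton, one_mul]
  apply hΨ.2
  unfold N8
  norm_num

/-- the coefficients of the block -/
def PF3_f (x a e : ℕ) (z : ℤ × ℤ) : ℂ := if 2 ^ e ≤ nn z ∧ nn z < 2 ^ (e + 1) then ((wt x a z : ℝ) : ℂ) else 0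

theorem PF3_pol (hSRF : SRF_stmt) (x a e : ℕ) (H : ℤ × ℤ → ℂ) (t : ℝ) :
    pol (fun z => wt x a z * H z) e t = ∑ z ∈ FF (2 ^ (e + 1)), PF3_f x a e z * (H z * nit t (nn z)) := by
  rw [← hSRF.1 (fun z => PF3_f x a e z * (H z * nit t (nn z))) (2 ^ (e + 1))]
  have h1 : ∀ n : ℕ, rf (fun z => PF3_f x a e z * (H z * nit t (nn z))) n =
      if 2 ^ e ≤ n ∧ n < 2 ^ (e + 1) then rf (fun z => wt x a z * H z) n * nit t n else 0 := by
    intro n
    unfold rf
    split_ifs with h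
    · rw [sum_mul]
      apply sum_congr rfl
      intro z hz
      have hzn : nn z = n := (mem_filter.mp hz).2
      show PF3_f x a e z * (H z * nit t (nn z)) = wt x a z * H z * nit t n
      unfold PF3_f
      rw [hzn, if_pos h]
      ring
    · apply sum_eq_zero
      intro z hz
      have hzn : nn z = n := (mem_filter.mp hz).2
      show PF3_f x a e z * (H z * nit t (nn z)) = 0
      unfold PF3_f
      rw [hzn, if_neg h, zero_mul]
  rw [sum_congr rfl fun n _ => h1 n, ← sum_filter]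
  unfold pol
  apply sum_congr _ fun _ _ => rfl
  ext n
  rw [mem_Ico, mem_filter, mem_Ioc]
  have h2 : 0 < 2 ^ e := pow_pos (by norm_num) _
  constructor
  · rintro ⟨h3, h4⟩
    exact ⟨⟨by omega, h4.le⟩, h3, h4⟩
  · rintro ⟨_, h3⟩
    exact h3

theorem PF3_log2 (x : ℕ) (hx : 2 ≤ x) : (1 : ℝ) / 2 ≤ Real.log x := by
  have h1 : Real.log 2 ≤ Real.log x := Real.log_le_log (by norm_num) (by exact_mod_cast hx)
  have h2 := Real.log_two_gt_d9
  linarith

theorem PF3_log9 (x e : ℕ) (hx : 2 ≤ x) (he : 2 ^ e ≤ 64 * x ^ 2) : Real.log ((2 : ℝ) ^ (e + 1)) ≤ 9 * Real.log x := by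
  have h1 : (2 : ℝ) ^ (e + 1) ≤ (x : ℝ) ^ 9 := by
    have h2 : 2 ^ (e + 1) ≤ x ^ 9 := by
      calc 2 ^ (e + 1) = 2 ^ e * 2 := pow_succ 2 e
        _ ≤ 64 * x ^ 2 * 2 := Nat.mul_le_mul_right 2 he
        _ = 2 ^ 7 * x ^ 2 := by ring
        _ ≤ x ^ 7 * x ^ 2 := Nat.mul_le_mul_right _ (Nat.pow_le_pow_left hx 7)
        _ = x ^ 9 := by ring
    exact_mod_cast h2
  have h3 := Real.log_le_log (by positivity) h1
  rw [Real.log_pow (n := 9)] at h3
  exact_mod_cast h3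

theorem PF3_mue (z : ℤ × ℤ) : |mue z| ≤ 1 := by
  unfold mue
  split_ifs
  · rw [abs_mul]
    have h1 : |((ArithmeticFunction.moebius (nn z / Int.gcd z.1 z.2 ^ 2) : ℤ) : ℝ)| ≤ 1 := by
      rw [← Int.cast_abs]
      exact_mod_cast ArithmeticFunction.abs_moebius_le_one
    have h2 : |ch8 (Int.gcd z.1 z.2)| ≤ 1 := by
      unfold ch8
      split_ifs <;> norm_num
    exact mul_le_one₀ h1 (abs_nonneg _) h2
  · norm_num

theorem PF3_bd (x a e : ℕ) (hx : 2 ≤ x) (he : 2 ^ e ≤ 64 * x ^ 2) (z : ℤ × ℤ) :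
    ‖PF3_f x a e z‖ ≤ 9 * Real.log x := by
  have hL := PF3_log2 x hx
  unfold PF3_f
  split_ifs with h
  · rw [Complex.norm_real, Real.norm_eq_abs]
    unfold wt
    split_ifs with h1 h2 h3
    · rw [abs_one]
      linarith
    · have h4 : (1 : ℝ) ≤ (nn z : ℝ) := by
        have : 1 ≤ nn z := le_trans (Nat.one_le_two_pow) h.1
        exact_mod_cast this
      rw [abs_of_nonneg (Real.log_nonneg h4)]
      refine (Real.log_le_log (by linarith) ?_).trans (PF3_log9 x e hx he)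
      have : nn z ≤ 2 ^ (e + 1) := h.2.le
      exact_mod_cast this
    · exact (PF3_mue z).trans (by linarith)
    · rw [abs_zero]
      linarith
  · rw [norm_zero]
    linarith

/-- the part of the character independent of the frequency -/
def PF3_c (ψ : ℤ × ℤ → ℂ) (j i : ℕ) (t : ℝ) (v : ℤ × ℤ) : ℂ :=
  ψ v * (-1) ^ (j * v.2.natAbs) * ((N8 v).sign : ℂ) ^ i * nit t (nn v)

theorem PF3_c_norm (d : ℕ) (ψ : ℤ × ℤ → ℂ) (hψ : IsRC d ψ) (j i : ℕ) (t : ℝ) (v : ℤ × ℤ) : ‖PF3_c ψ j i t v‖ ≤ 1 := by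
  unfold PF3_c
  have h1 : ‖ψ v‖ ≤ 1 := by
    by_cases h : Nat.Coprime (nn v) d
    · exact (hψ.2.2.2.1 v h).le
    · rw [hψ.2.2.1 v h, norm_zero]
      norm_num
  have h2 : ‖((N8 v).sign : ℂ) ^ i‖ ≤ 1 := by
    rw [norm_pow]
    apply pow_le_one₀ (norm_nonneg _)
    rw [Complex.norm_intCast]
    rcases lt_trichotomy (N8 v) 0 with h | h | h
    · rw [Int.sign_eq_neg_one_of_neg h]
      norm_num
    · rw [h]
      norm_num
    · rw [Int.sign_eq_one_of_pos h]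
      norm_num
  rw [norm_mul, norm_mul, norm_mul, PF3_nit_norm, mul_one, norm_pow, norm_neg, norm_one, one_pow, mul_one]
  exact mul_le_one₀ h1 (norm_nonneg _) h2

theorem PF3_split (ψ : ℤ × ℤ → ℂ) (j i : ℕ) (κ t : ℝ) (v : ℤ × ℤ) :
    HC ψ j i κ v * nit t (nn v) = PF3_c ψ j i t v * Complex.exp (((κ * yy v : ℝ) : ℂ) * Complex.I) := by
  unfold HC PF3_c
  push_cast
  ring

theorem PF3 (hPRC : PRC_stmt) (hMVH : MVH_stmt) (hUCH : UCH_stmt) (hSRF : SRF_stmt) : PF3_stmt := by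
  intro r
  obtain ⟨C, E, hC, hM⟩ := hMVH (3 * r)
  refine ⟨C * 9 ^ (2 * r) * 4 ^ r * (9 * r + 2) ^ E, 2 * r + E, by positivity, ?_⟩
  intro x hx a e ha he I d ψ hψ j i α t hU K hK
  have hL := PF3_log2 x hx
  set L := Real.log x with hLdef
  have hL0 : 0 < L := by linarith
  set V := 9 * L with hV
  have hV1 : 1 ≤ V := by linarith
  set f : Fin r → ℤ × ℤ → ℂ := fun k z => if k ∈ I then PF3_f x (a k) (e k) z else 1 with hf
  set N : Fin r → ℕ := fun k => if k ∈ I then 2 ^ (e k + 1) else 1 with hNdef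
  have hfV : ∀ k z, ‖f k z‖ ≤ V := by
    intro k z
    show ‖if k ∈ I then PF3_f x (a k) (e k) z else 1‖ ≤ V
    split_ifs
    · exact PF3_bd x (a k) (e k) hx (he k) z
    · rw [norm_one]
      exact hV1
  have hN1 : ∀ k, 1 ≤ N k := by
    intro k
    show 1 ≤ if k ∈ I then 2 ^ (e k + 1) else 1
    split_ifs
    · exact Nat.one_le_two_pow
    · exact le_rfl
  obtain ⟨b, hb, hbΨ⟩ := hPRC r f N V hV1 hfV hN1
  set M := ∏ k, N k with hMdef
  have hM0 : 0 < M := Finset.prod_pos fun k _ => hN1 k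
  have hM1 : 1 ≤ M := hM0
  have hMI : M = ∏ k ∈ I, 2 ^ (e k + 1) := by
    rw [hMdef, hNdef, Finset.prod_ite_mem, univ_inter]
  set P : ℝ := ∏ k ∈ I, (2 : ℝ) ^ e k with hP
  have hP0 : 0 < P := Finset.prod_pos fun k _ => by positivity
  have hIr : I.card ≤ r := by
    have := Finset.card_le_univ I
    rwa [Fintype.card_fin] at this
  have hMP : (M : ℝ) ≤ 2 ^ r * P := by
    rw [hMI]
    push_cast
    have h1 : ∏ k ∈ I, (2 : ℝ) ^ (e k + 1) = 2 ^ I.card * P := by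
      rw [hP, ← Finset.prod_const, ← Finset.prod_mul_distrib]
      apply Finset.prod_congr rfl
      intro k _
      ring
    rw [h1]
    exact mul_le_mul_of_nonneg_right (pow_le_pow_right₀ (by norm_num) hIr) hP0.le
  have hlogM : Real.log M ≤ 9 * r * L := by
    rw [hMI]
    push_cast
    rw [Real.log_prod (fun k _ => by positivity)]
    have h1 : ∀ k ∈ I, Real.log ((2 : ℝ) ^ (e k + 1)) ≤ 9 * L := fun k _ => PF3_log9 x (e k) hx (he k)
    refine (Finset.sum_le_card_nsmul _ _ _ h1).trans ?_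
    rw [nsmul_eq_mul]
    have h2 : (I.card : ℝ) ≤ r := by exact_mod_cast hIr
    nlinarith
  have hlogM0 : 0 ≤ Real.log M := Real.log_nonneg (by exact_mod_cast hM1)
  have hlog2 : 1 + Real.log M ≤ (9 * r + 2) * L := by nlinarith
  -- the products
  have hprod : ∀ m : ℤ, ∏ k ∈ I, ‖pol (fun z => wt x (a k) z * HC ψ j i (fr α m) z) (e k) t‖ ^ 2 =
      ‖∑ v ∈ FF M, (b v * PF3_c ψ j i t v) * Complex.exp (((fr α m * yy v : ℝ) : ℂ) * Complex.I)‖ ^ 2 := by
    intro m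
    have hMU := PF3_MU hUCH d ψ hψ j i (fr α m) t (hU m)
    have h1 := hbΨ _ hMU
    have h2 : ∀ k : Fin r, ∑ z ∈ FF (N k), f k z * (HC ψ j i (fr α m) z * nit t (nn z)) =
        if k ∈ I then pol (fun z => wt x (a k) z * HC ψ j i (fr α m) z) (e k) t else 1 := by
      intro k
      by_cases hk : k ∈ I
      · rw [if_pos hk, PF3_pol hSRF]
        have e1 : N k = 2 ^ (e k + 1) := if_pos hk
        rw [e1]
        apply sum_congr rfl
        intro z _
        have e2 : f k z = PF3_f x (a k) (e k) z := if_pos hk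
        rw [e2]
      · rw [if_neg hk]
        have e1 : N k = 1 := if_neg hk
        rw [e1, ← PF3_FF1 _ hMU]
        apply sum_congr rfl
        intro z _
        have e2 : f k z = 1 := if_neg hk
        rw [e2]
    rw [Finset.prod_congr rfl fun k _ => h2 k, Finset.prod_ite_mem, univ_inter] at h1
    rw [Finset.prod_pow, ← norm_prod, h1]
    congr 2
    apply sum_congr rfl
    intro v _
    rw [mul_assoc, ← PF3_split]
  rw [sum_congr rfl fun m _ => hprod m]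
  have hbV : ∀ v ∈ FF M, ‖b v * PF3_c ψ j i t v‖ ≤ V ^ r * (#(nn v).divisors : ℝ) ^ (3 * r) := by
    intro v hv
    rw [norm_mul]
    calc ‖b v‖ * ‖PF3_c ψ j i t v‖ ≤ ‖b v‖ * 1 := mul_le_mul_of_nonneg_left (PF3_c_norm d ψ hψ j i t v) (norm_nonneg _)
      _ = ‖b v‖ := mul_one _
      _ ≤ _ := hb v hv
  refine (hM M K (V ^ r) α _ hM1 hK (by positivity) hbV).trans ?_
  have hKP : (K : ℝ) + M ≤ 2 ^ r * (K + P) := by
    have h1 : (1 : ℝ) ≤ 2 ^ r := one_le_pow₀ (by norm_num)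
    have h2 : (0 : ℝ) ≤ K := Nat.cast_nonneg K
    nlinarith
  have hK0 : (0 : ℝ) ≤ K := Nat.cast_nonneg K
  calc C * (V ^ r) ^ 2 * (K + M) * M * (1 + Real.log M) ^ E
      ≤ C * (V ^ r) ^ 2 * (2 ^ r * (K + P)) * (2 ^ r * P) * ((9 * r + 2) * L) ^ E := by
        apply mul_le_mul
        · apply mul_le_mul
          · exact mul_le_mul_of_nonneg_left hKP (by positivity)
          · exact hMP
          · exact Nat.cast_nonneg _
          · positivity
        · exact pow_le_pow_left₀ (by linarith) hlog2 E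
        · exact pow_nonneg (by linarith) E
        · positivity
    _ = C * 9 ^ (2 * r) * 4 ^ r * (9 * r + 2) ^ E * L ^ (2 * r + E) * (K + P) * P := by
        have h4 : (4 : ℝ) ^ r = 2 ^ r * 2 ^ r := by
          rw [← mul_pow]
          norm_num
        rw [h4, hV, mul_pow, mul_pow, mul_pow, pow_mul', pow_add, pow_mul' L]
        ring

end Pool.Agent.BP
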