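import Pool.Agent.helper36.BP.SpecR

/-!
# Project bp, row VMG
-/

set_option autoImplicit false

open Finset
open Pool.Agent.FI Pool.Agent.HK
open Pool.Agent.CH (nit rgh ll2)
open Pool.Agent.SK (tr0 Th)

noncomputable section

namespace Pool.Agent.BP

theorem VMG_nit_norm (t x : ℝ) : ‖nit t x‖ = 1 := by
  unfold nit
  exact Complex.norm_exp_ofReal_mul_I _

theorem VMG_cpow (t : ℝ) (s : ℂ) (n : ℕ) (hn : n ≠ 0) :
    ((n : ℂ) ^ s) = (n : ℂ) ^ (s - t * Complex.I) * nit t n := by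
  have hn' : (n : ℂ) ≠ 0 := Nat.cast_ne_zero.2 hn
  have h1 : nit t n = (n : ℂ) ^ ((t : ℂ) * Complex.I) := by
    unfold nit
    rw [Complex.cpow_def_of_ne_zero hn', ← Complex.natCast_log]
    congr 1
    push_cast
    ring
  rw [h1, ← Complex.cpow_add _ _ hn']
  congr 1
  ring

theorem VMG_series (f : ℕ → ℂ) (t : ℝ) (s : ℂ) :
    LSeries (fun n => f n * nit t n) s = LSeries f (s - t * Complex.I) := by
  unfold LSeries
  refine tsum_congr fun n => ?_
  rcases Nat.eq_zero_or_pos n with h | h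
  · subst h
    rw [LSeries.term_zero, LSeries.term_zero]
  · have hn : n ≠ 0 := h.ne'
    have hn' : (n : ℂ) ≠ 0 := Nat.cast_ne_zero.2 hn
    rw [LSeries.term_of_ne_zero hn, LSeries.term_of_ne_zero hn, VMG_cpow t s n hn]
    have h2 : nit t n ≠ 0 := by
      intro h0
      have := VMG_nit_norm t n
      rw [h0, norm_zero] at this
      exact zero_ne_one this
    have h3 : (n : ℂ) ^ (s - t * Complex.I) ≠ 0 := by
      rw [Complex.cpow_def_of_ne_zero hn']
      exact Complex.exp_ne_zero _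
    rw [mul_div_mul_right _ _ h2]

theorem VMG_dl (x : ℝ) (hL : 1 ≤ Real.log x) (m : ℕ) :
    CH.dl x ^ (20 * m + 160 + 8) ≤ Real.log x ^ (20 * m + 160) / Real.log x ^ m := by
  have hL0 : 0 < Real.log x := by linarith
  unfold CH.dl
  rw [← Real.rpow_natCast, ← Real.rpow_mul hL0.le, ← Real.rpow_natCast (Real.log x) (20 * m + 160),
    ← Real.rpow_natCast (Real.log x) m, ← Real.rpow_sub hL0]
  apply Real.rpow_le_rpow_of_exponent_le hL
  push_cast
  have : (0 : ℝ) ≤ m := Nat.cast_nonneg m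
  linarith

theorem VMG_cv (g h : ℕ → ℂ) (hg : CM g) (hh : CM h) (n : ℕ) : ‖cv (mg g) (mg h) n‖ ≤ #n.divisors := by
  have h1 : ∀ f : ℕ → ℂ, CM f → ∀ k : ℕ, ‖mg f k‖ ≤ 1 := by
    intro f hf k
    unfold mg
    rw [norm_mul]
    have h3 : ‖((ArithmeticFunction.moebius k : ℤ) : ℂ)‖ ≤ 1 := by
      rw [Complex.norm_intCast]
      exact_mod_cast ArithmeticFunction.abs_moebius_le_one
    exact mul_le_one₀ h3 (norm_nonneg _) (hf.2.2.2 k)
  unfold cv
  refine (norm_sum_le _ _).trans ?_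
  have h2 : ∀ d ∈ n.divisorsAntidiagonal, ‖mg g d.1 * mg h d.2‖ ≤ 1 := by
    intro d _
    rw [norm_mul]
    exact mul_le_one₀ (h1 g hg _) (norm_nonneg _) (h1 h hh _)
  refine (Finset.sum_le_card_nsmul _ _ _ h2).trans ?_
  rw [nsmul_eq_mul, mul_one, ← Nat.map_div_right_divisors, Finset.card_map]

theorem VMG_Hs (x : ℝ) (hL : 1 ≤ Real.log x) (A A' : ℕ) (hA : A' ≤ A) (R : ℝ) (a : ℕ → ℂ) (h : Hs x A R a) :
    Hs x A' R a := by
  intro τ hτ v hv
  refine (h τ hτ v hv).trans ?_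
  apply div_le_div_of_nonneg_left (Nat.cast_nonneg _) (pow_pos (by linarith) _)
  exact pow_le_pow_right₀ hL hA

theorem VMG (hMMB : MMB_stmt) (hFSB : FSB_stmt) : VMG_stmt := by
  intro A
  obtain ⟨m, hm⟩ := hFSB (A + 1)
  obtain ⟨C, x₁, hC, hFS⟩ := hm (20 * m + 160)
  obtain ⟨A₁', x₂, hMM⟩ := hMMB (20 * m + 160)
  refine ⟨max m A₁', max (max x₁ x₂) (Real.exp (max C 2)), ?_⟩
  intro x hx R k₁ k₂ g₁ g₂ h₁ h₂ hD t ht
  have hx1 : x₁ ≤ x := le_trans (le_trans (le_max_left _ _) (le_max_left _ _)) hx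
  have hx2 : x₂ ≤ x := le_trans (le_trans (le_max_right _ _) (le_max_left _ _)) hx
  have hx4 : Real.exp (max C 2) ≤ x := le_trans (le_max_right _ _) hx
  have hx0 : 0 < x := (Real.exp_pos _).trans_le hx4
  obtain ⟨L, hL⟩ : ∃ L : ℝ, L = Real.log x := ⟨_, rfl⟩
  have hLm : max C 2 ≤ L := by rw [hL, Real.le_log_iff_exp_le hx0]; exact hx4
  have hLC : C ≤ L := (le_max_left _ _).trans hLm
  have hL2 : 2 ≤ L := (le_max_right _ _).trans hLm
  have hL1 : 1 ≤ L := by linarith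
  have hL0 : 0 < L := by linarith
  have hD' : DtR x A₁' (R + Real.log x ^ (max m A₁')) k₁ k₂ g₁ g₂ h₁ h₂ := by
    obtain ⟨c1, c2, c3, c4, c5, c6, c7, c8, c9, c10⟩ := hD
    exact ⟨c1, c2, c3, c4, c5, c6, c7, c8, VMG_Hs x (by rw [← hL]; exact hL1) _ _ (le_max_right _ _) _ _ c9,
      VMG_Hs x (by rw [← hL]; exact hL1) _ _ (le_max_right _ _) _ _ c10⟩
  have hg1 : CM g₁ := hD.2.2.1
  have hg2 : CM g₂ := hD.2.2.2.1
  have ha : ∀ n, ‖cv (mg g₁) (mg g₂) n * nit t n‖ ≤ #n.divisors := by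
    intro n
    rw [norm_mul, VMG_nit_norm, mul_one]
    exact VMG_cv g₁ g₂ hg1 hg2 n
  have hF : ∀ u : ℝ, |u| ≤ Real.log x ^ m →
      ‖LSeries (fun n => (cv (mg g₁) (mg g₂) n * nit t n) * (Real.log n : ℂ) ^ (20 * m + 160))
        (1 + 1 / (Real.log x : ℂ) + u * Complex.I)‖ ≤ Real.log x ^ (20 * m + 160) / Real.log x ^ m := by
    intro u hu
    have e : (fun n : ℕ => (cv (mg g₁) (mg g₂) n * nit t n) * (Real.log n : ℂ) ^ (20 * m + 160)) =
        fun n : ℕ => (cv (mg g₁) (mg g₂) n * (Real.log n : ℂ) ^ (20 * m + 160)) * nit t n := by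
      funext n
      ring
    rw [e, VMG_series]
    have e2 : (1 + 1 / (Real.log x : ℂ) + u * Complex.I - t * Complex.I) =
        ((1 + 1 / Real.log x : ℝ) : ℂ) + ((u - t : ℝ) : ℂ) * Complex.I := by
      push_cast
      ring
    rw [e2]
    have hLe : 1 / Real.log x ≤ 1 := by
      rw [← hL, div_le_one hL0]
      exact hL1
    have hut : |u - t| ≤ R + Real.log x ^ (max m A₁') := by
      have e3 : |u - t| ≤ |u| + |t| := abs_sub u t
      have e4 : Real.log x ^ m ≤ Real.log x ^ (max m A₁') := by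
        rw [← hL]
        exact pow_le_pow_right₀ hL1 (le_max_left _ _)
      linarith
    have h3 := hMM x hx2 (R + Real.log x ^ (max m A₁')) k₁ k₂ g₁ g₂ h₁ h₂ hD' (1 + 1 / Real.log x) (u - t) le_rfl
      (by linarith) hut (20 * m + 160) le_rfl
    exact h3.trans (VMG_dl x (by rw [← hL]; exact hL1) m)
  refine (hFS x hx1 (fun n => cv (mg g₁) (mg g₂) n * nit t n) ha hF).trans ?_
  rw [← hL, pow_succ, div_le_div_iff₀ (by positivity) (by positivity)]
  have : 0 < x * L ^ A := by positivity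
  nlinarith

end Pool.Agent.BP
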